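import Pool.Agent.Helper53.Ext.Line

/-!
# Every finite set is at a constant distance from a set of spread vectors
-/

set_option autoImplicit false

namespace Pool.Agent.Helper53.Ext

open Finset

/-- sums over a lexicographic product -/
theorem sum_lex {Γ : Type} [Fintype Γ] {W : ℕ} (F : Γ ×ₗ Fin W → ℝ) :
    ∑ t, F t = ∑ γ, ∑ n : Fin W, F (toLex (γ, n)) := by
  rw [← Equiv.sum_comp (toLex : Γ × Fin W ≃ Γ ×ₗ Fin W) F, Fintype.sum_prod_type]

/-- the embedding which shifts the block `γ` by `sh γ` -/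
noncomputable def shiftEmb {Γ : Type} [LinearOrder Γ] {l W : ℕ} (sh : Γ → ℕ)
    (hsh : ∀ γ, l + sh γ ≤ W) : (Γ ×ₗ Fin l) ↪o (Γ ×ₗ Fin W) :=
  OrderEmbedding.ofStrictMono
    (fun p => toLex ((ofLex p).1, ⟨((ofLex p).2 : ℕ) + sh (ofLex p).1, by
      have := (ofLex p).2.2; have := hsh (ofLex p).1; omega⟩)) (by
    intro p q hpq
    rw [Prod.Lex.lt_iff] at hpq ⊢
    rcases hpq with h | ⟨h1, h2⟩
    · exact Or.inl h
    · right
      refine ⟨h1, ?_⟩
      simp only [ofLex_toLex, Fin.lt_def] at h2 ⊢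
      rw [h1]
      omega)

theorem shiftEmb_eq_iff {Γ : Type} [LinearOrder Γ] {l W : ℕ} (sh : Γ → ℕ)
    (hsh : ∀ γ, l + sh γ ≤ W) (γ' γ : Γ) (m : Fin l) (n : Fin W) :
    shiftEmb sh hsh (toLex (γ', m)) = toLex (γ, n) ↔ γ' = γ ∧ (m : ℕ) + sh γ' = n := by
  have h1 : shiftEmb sh hsh (toLex (γ', m)) = toLex (γ', ⟨(m : ℕ) + sh γ', by
      have := m.2; have := hsh γ'; omega⟩) := rfl
  rw [h1, toLex_inj, Prod.mk.injEq, Fin.ext_iff]

theorem spread_shift {Γ : Type} [Fintype Γ] [LinearOrder Γ] {l W : ℕ} (sh : Γ → ℕ)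
    (hsh : ∀ γ, l + sh γ ≤ W) (vec : Γ → ℕ → ℝ) (hvec : ∀ γ n, l ≤ n → vec γ n = 0)
    (γ : Γ) (n : Fin W) :
    spread (fun p : Γ ×ₗ Fin l => vec (ofLex p).1 (ofLex p).2) (shiftEmb sh hsh) (toLex (γ, n))
      = if sh γ ≤ n then vec γ (n - sh γ) else 0 := by
  unfold spread
  rw [sum_lex]
  simp only [shiftEmb_eq_iff, ofLex_toLex]
  rw [Finset.sum_eq_single γ]
  · simp only [true_and]
    split_ifs with h
    · by_cases h2 : (n : ℕ) - sh γ < l
      · rw [Finset.sum_eq_single (⟨(n : ℕ) - sh γ, h2⟩ : Fin l)]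
        · exact if_pos (by show (n : ℕ) - sh γ + sh γ = n; omega)
        · intro m _ hm
          refine if_neg ?_
          intro h3
          apply hm
          ext
          show (m : ℕ) = (n : ℕ) - sh γ
          omega
        · intro h3; exact absurd (Finset.mem_univ _) h3
      · rw [hvec γ _ (by omega)]
        refine Finset.sum_eq_zero fun m _ => if_neg ?_
        have := m.2
        omega
    · refine Finset.sum_eq_zero fun m _ => if_neg ?_
      omega
  · intro γ' _ hγ'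
    exact Finset.sum_eq_zero fun m _ => if_neg fun h => hγ' h.1
  · intro h; exact absurd (Finset.mem_univ _) h

theorem two_spikes (W : ℕ) (hW : 2 ≤ W) (y : ℝ) :
    ∑ n : Fin W, ((if 1 ≤ (n : ℕ) then (if (n : ℕ) - 1 = 0 then y else 0) else 0)
      - (if (n : ℕ) = 0 then y else 0)) ^ 2 = 2 * y ^ 2 := by
  obtain ⟨V, rfl⟩ : ∃ V, W = V + 1 + 1 := ⟨W - 2, by omega⟩
  rw [Fin.sum_univ_eq_sum_range (fun n => ((if 1 ≤ n then (if n - 1 = 0 then y else 0) else 0)
    - (if n = 0 then y else 0)) ^ 2) (V + 1 + 1), Finset.sum_range_succ', Finset.sum_range_succ']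
  simp
  ring

theorem approx : Approx := by
  intro α β hα hβ P h hh
  classical
  have : Fintype α := Fintype.ofFinite α
  obtain ⟨C0, hC0, hC⟩ : ∃ C0 : ℝ, 0 ≤ C0 ∧ ∀ a b, |P a b| ≤ C0 := by
    refine ⟨∑ a, ∑ b, |P a b|, by positivity, fun a b => ?_⟩
    calc |P a b| ≤ ∑ b, |P a b| :=
          Finset.single_le_sum (f := fun b => |P a b|) (fun _ _ => abs_nonneg _) (mem_univ b)
      _ ≤ ∑ a, ∑ b, |P a b| :=
          Finset.single_le_sum (f := fun a => ∑ b, |P a b|)
            (fun _ _ => Finset.sum_nonneg fun _ _ => abs_nonneg _) (mem_univ a)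
  set δ : ℝ := h / (Fintype.card β + 1) with hδ
  have hδ0 : 0 < δ := by positivity
  obtain ⟨l, S, v, u, hv0, hv, hu, hline⟩ := lineApprox (2 * C0) δ hδ0
  have hx : ∀ a b, ∃ s ≤ S, ∀ W, l ≤ W →
      ∑ n ∈ range W, (v (n - s) - (v n + (P a b + C0) * u n)) ^ 2 ≤ δ := by
    intro a b
    have := abs_le.1 (hC a b)
    exact hline _ (by linarith) (by linarith)
  choose s hsS hs using hx
  set W : ℕ := l + 1 + (S + 1) with hW
  set err : α → ℝ := fun a => ∑ b, ∑ n ∈ range W, (v (n - s a b) - (v n + (P a b + C0) * u n)) ^ 2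
    with herr
  have herrh : ∀ a, 0 ≤ h - err a := by
    intro a
    have h1 : err a ≤ ∑ _b : β, δ := Finset.sum_le_sum fun b _ => hs a b W (by omega)
    rw [Finset.sum_const, nsmul_eq_mul, Finset.card_univ] at h1
    have h2 : (Fintype.card β : ℝ) * δ ≤ h := by
      rw [hδ, mul_div_assoc', div_le_iff₀ (by positivity)]
      nlinarith [hh]
    linarith
  set Γ := Fin (Fintype.card (β ⊕ α)) with hΓ
  set e : Γ ≃ β ⊕ α := (Fintype.equivFin (β ⊕ α)).symm with he
  set vec : β ⊕ α → ℕ → ℝ := Sum.elim (fun _ => v)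
    (fun a0 n => if n = 0 then Real.sqrt ((h - err a0) / 2) else 0) with hvec
  set sh : α → β ⊕ α → ℕ := fun a => Sum.elim (fun b => s a b) (fun a0 => if a = a0 then 1 else 0)
    with hsh
  have hshW : ∀ a γ, l + 1 + sh a (e γ) ≤ W := by
    intro a γ
    rcases e γ with b | a0
    · simp only [hsh, Sum.elim_inl]
      have := hsS a b
      omega
    · simp only [hsh, Sum.elim_inr]
      split_ifs <;> omega
  have hvec0 : ∀ (x : β ⊕ α) (n : ℕ), l + 1 ≤ n → vec x n = 0 := by
    rintro (b | a0) n hn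
    · simp only [hvec, Sum.elim_inl]; exact hv n (by omega)
    · simp only [hvec, Sum.elim_inr]; exact if_neg (by omega)
  set kap : α → β ⊕ α → ℕ → ℝ := fun a => Sum.elim (fun b n => v n + (P a b + C0) * u n)
    (fun a0 n => vec (Sum.inr a0) n) with hkap
  refine ⟨Γ ×ₗ Fin (l + 1), Γ ×ₗ Fin W, inferInstance, inferInstance, inferInstance,
    inferInstance, fun p => vec (e (ofLex p).1) (ofLex p).2,
    fun a => shiftEmb (fun γ => sh a (e γ)) (hshW a),
    fun a t => kap a (e (ofLex t).1) (ofLex t).2, ?_, ?_⟩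
  · intro a a'
    unfold sqd
    rw [sum_lex]
    simp only [ofLex_toLex]
    rw [Equiv.sum_comp e (fun x => ∑ n : Fin W, (kap a x n - kap a' x n) ^ 2),
      Fintype.sum_sum_type]
    have h1 : ∀ a0 : α, ∑ n : Fin W, (kap a (Sum.inr a0) n - kap a' (Sum.inr a0) n) ^ 2 = 0 := by
      intro a0
      simp [hkap]
    have h2 : ∀ b : β, ∑ n : Fin W, (kap a (Sum.inl b) n - kap a' (Sum.inl b) n) ^ 2
        = (P a b - P a' b) ^ 2 := by
      intro b
      have h3 : ∀ n : Fin W, (kap a (Sum.inl b) n - kap a' (Sum.inl b) n) ^ 2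
          = (P a b - P a' b) ^ 2 * u n ^ 2 := by
        intro n
        simp only [hkap, Sum.elim_inl]
        ring
      rw [Finset.sum_congr rfl fun n _ => h3 n, ← Finset.mul_sum,
        Fin.sum_univ_eq_sum_range (fun n => u n ^ 2) W, hu W (by omega), mul_one]
    simp only [h1, h2, Finset.sum_const_zero, add_zero]
  · intro a
    unfold sqd
    rw [sum_lex]
    have h0 : ∀ (γ : Γ) (n : Fin W),
        spread (fun p : Γ ×ₗ Fin (l + 1) => vec (e (ofLex p).1) (ofLex p).2)
          (shiftEmb (fun γ => sh a (e γ)) (hshW a)) (toLex (γ, n))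
        = if sh a (e γ) ≤ n then vec (e γ) (n - sh a (e γ)) else 0 := fun γ n =>
      spread_shift (fun γ => sh a (e γ)) (hshW a) (fun γ => vec (e γ)) (fun γ => hvec0 (e γ)) γ n
    simp only [h0, ofLex_toLex]
    rw [Equiv.sum_comp e (fun x => ∑ n : Fin W,
      ((if sh a x ≤ n then vec x (n - sh a x) else 0) - kap a x n) ^ 2), Fintype.sum_sum_type]
    have h1 : ∀ b : β, ∑ n : Fin W, ((if sh a (Sum.inl b) ≤ n then
        vec (Sum.inl b) (n - sh a (Sum.inl b)) else 0) - kap a (Sum.inl b) n) ^ 2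
        = ∑ n ∈ range W, (v (n - s a b) - (v n + (P a b + C0) * u n)) ^ 2 := by
      intro b
      rw [← Fin.sum_univ_eq_sum_range]
      refine Finset.sum_congr rfl fun n _ => ?_
      simp only [hkap, hvec, hsh, Sum.elim_inl]
      split_ifs with h3
      · rfl
      · rw [show (n : ℕ) - s a b = 0 by omega, hv0]
    have h2 : ∀ a0 : α, ∑ n : Fin W, ((if sh a (Sum.inr a0) ≤ n then
        vec (Sum.inr a0) (n - sh a (Sum.inr a0)) else 0) - kap a (Sum.inr a0) n) ^ 2
        = if a = a0 then h - err a0 else 0 := by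
      intro a0
      simp only [hkap, hvec, hsh, Sum.elim_inr]
      by_cases ha : a = a0
      · simp only [if_pos ha]
        have h4 : Real.sqrt ((h - err a0) / 2) ^ 2 = (h - err a0) / 2 :=
          Real.sq_sqrt (by have := herrh a0; linarith)
        rw [two_spikes W (by omega), h4]
        ring
      · simp [if_neg ha]
    simp only [h1, h2]
    rw [Finset.sum_ite_eq, if_pos (mem_univ a)]
    simp only [herr]
    ring

end Pool.Agent.Helper53.Ext
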