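import Pool.Agent.Helper53.Ext.Ramsey

/-!
# Finite hosts for configurations, and the induction on the number of colours
-/

set_option autoImplicit false

namespace Pool.Agent.Helper53.Ext

open Finset

/-- the square of the Euclidean distance -/
def sqd {β : Type} [Fintype β] (x y : β → ℝ) : ℝ := ∑ b, (x b - y b) ^ 2

theorem sqd_sum {β γ : Type} [Fintype β] [Fintype γ] (x y : β → ℝ) (x' y' : γ → ℝ) :
    sqd (Sum.elim x x') (Sum.elim y y') = sqd x y + sqd x' y' := by
  simp [sqd]

theorem sqd_self {β : Type} [Fintype β] (x : β → ℝ) : sqd x x = 0 := by simp [sqd]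

theorem sqd_comm {β : Type} [Fintype β] (x y : β → ℝ) : sqd x y = sqd y x := by
  unfold sqd
  exact Finset.sum_congr rfl fun b _ => by ring

/-- the push-forward of a vector along an embedding of index sets -/
noncomputable def push {T : Type} [Fintype T] {N : ℕ} (f : T → Fin N) (v : T → ℝ) : Fin N → ℝ :=
  fun n => ∑ t, if f t = n then v t else 0

theorem sqd_push {T : Type} [Fintype T] {N : ℕ} (f : T → Fin N) (hf : Function.Injective f)
    (v w : T → ℝ) : sqd (push f v) (push f w) = sqd v w := by
  classical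
  unfold sqd
  have h1 : ∀ n : Fin N, (push f v n - push f w n) ^ 2
      = ∑ t, if f t = n then (v t - w t) ^ 2 else 0 := by
    intro n
    unfold push
    by_cases h : ∃ t, f t = n
    · obtain ⟨t, rfl⟩ := h
      have e : ∀ u : T → ℝ, (∑ t', if f t' = f t then u t' else 0) = u t := by
        intro u
        rw [Finset.sum_eq_single t]
        · simp
        · intro b _ hb
          rw [if_neg (fun h => hb (hf h))]
        · intro h; exact absurd (Finset.mem_univ t) h
      rw [e, e, e (fun t => (v t - w t) ^ 2)]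
    · have e : ∀ u : T → ℝ, (∑ t', if f t' = n then u t' else 0) = 0 := by
        intro u
        exact Finset.sum_eq_zero fun t' _ => if_neg fun h' => h ⟨t', h'⟩
      rw [e, e, e (fun t => (v t - w t) ^ 2)]
      simp
  rw [Finset.sum_congr rfl fun n _ => h1 n, Finset.sum_comm]
  refine Finset.sum_congr rfl fun t _ => ?_
  simp

/-- the spread vector: the entries `A l` at the positions `J l`, zero elsewhere -/
noncomputable def spread {L T : Type} [Fintype L] [DecidableEq T] (A : L → ℝ) (J : L → T) :
    T → ℝ := fun t => ∑ l, if J l = t then A l else 0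

theorem push_spread {L T : Type} [Fintype L] [Fintype T] [DecidableEq T] {N : ℕ} (A : L → ℝ)
    (J : L → T) (f : T → Fin N) : push f (spread A J) = spread A (f ∘ J) := by
  funext n
  unfold push spread
  have h1 : ∀ t, (if f t = n then ∑ l, (if J l = t then A l else 0) else 0)
      = ∑ l, if J l = t then (if f t = n then A l else 0) else 0 := by
    intro t
    split_ifs with h
    · rfl
    · simp
  rw [Finset.sum_congr rfl fun t _ => h1 t, Finset.sum_comm]
  refine Finset.sum_congr rfl fun l _ => ?_
  simp [Function.comp]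

/-- Every colouring of a suitable finite set of points with the colours `C` has a monochromatic
copy of the configuration with the squared distances `D`. -/
def Host (ι : Type) (D : ι → ι → ℝ) (C : Type) : Prop :=
  ∃ (α β : Type) (_ : Finite α) (_ : Fintype β) (P : α → β → ℝ), ∀ c : α → C,
    ∃ g : ι → α, (∀ i j, c (g i) = c (g j)) ∧ ∀ i j, sqd (P (g i)) (P (g j)) = D i j

theorem Host.equiv {ι : Type} {D : ι → ι → ℝ} {C C' : Type} (e : C' → C)
    (he : Function.Injective e) (h : Host ι D C) : Host ι D C' := by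
  obtain ⟨α, β, hα, hβ, P, hP⟩ := h
  refine ⟨α, β, hα, hβ, P, fun c => ?_⟩
  obtain ⟨g, hg, hg'⟩ := hP (fun a => e (c a))
  exact ⟨g, fun i j => he (hg i j), hg'⟩

/-- distances from an affine combination are determined by the mutual distances -/
theorem sqd_foot {ι β : Type} [Fintype ι] [Fintype β] (w : ι → ℝ) (hw : ∑ i, w i = 1)
    (u : ι → β → ℝ) (j : ι) :
    sqd (fun b => ∑ i, w i * u i b) (u j)
      = ∑ i, w i * sqd (u i) (u j) - (∑ i, ∑ l, w i * w l * sqd (u i) (u l)) / 2 := by
  have h1 : ∀ b, ((∑ i, w i * u i b) - u j b) ^ 2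
      = ∑ i, w i * (u i b - u j b) ^ 2 - (∑ i, ∑ l, w i * w l * (u i b - u l b) ^ 2) / 2 := by
    intro b
    have e0 : (∑ i, w i * u i b) - u j b = ∑ i, w i * (u i b - u j b) := by
      have : ∑ i, w i * (u i b - u j b) = (∑ i, w i * u i b) - (∑ i, w i) * u j b := by
        rw [Finset.sum_mul, ← Finset.sum_sub_distrib]
        exact Finset.sum_congr rfl fun i _ => by ring
      rw [this, hw, one_mul]
    have e1 : ∑ i, ∑ l, w i * w l * (u i b - u l b) ^ 2
        = 2 * ∑ i, w i * (u i b - u j b) ^ 2 - 2 * (∑ i, w i * (u i b - u j b)) ^ 2 := by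
      have e2 : ∀ i l, w i * w l * (u i b - u l b) ^ 2
          = (w i * (u i b - u j b) ^ 2) * w l + w i * (w l * (u l b - u j b) ^ 2)
            - 2 * ((w i * (u i b - u j b)) * (w l * (u l b - u j b))) := by
        intro i l; ring
      simp only [e2, Finset.sum_sub_distrib, Finset.sum_add_distrib, ← Finset.mul_sum,
        ← Finset.sum_mul, hw]
      ring
    rw [e0, e1]
    ring
  unfold sqd
  simp only [h1]
  rw [Finset.sum_sub_distrib, ← Finset.sum_div]
  congr 1
  · rw [Finset.sum_comm]
    exact Finset.sum_congr rfl fun i _ => by rw [Finset.mul_sum]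
  · congr 1
    rw [Finset.sum_comm]
    refine Finset.sum_congr rfl fun i _ => ?_
    rw [Finset.sum_comm]
    exact Finset.sum_congr rfl fun l _ => by rw [Finset.mul_sum]

/-- the squared distances after adding a point whose distances are `F` -/
def extD {ι : Type} (D : ι → ι → ℝ) (F : ι → ℝ) : Option ι → Option ι → ℝ
  | some i, some j => D i j
  | some i, none => F i
  | none, some i => F i
  | none, none => 0

/-- The approximation of a finite set by spread vectors, used in the induction step. -/
def Approx : Prop :=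
  ∀ (α β : Type) (_ : Finite α) (_ : Fintype β) (P : α → β → ℝ) (h : ℝ), 0 < h →
    ∃ (L T : Type) (_ : Fintype L) (_ : LinearOrder L) (_ : Fintype T) (_ : LinearOrder T)
      (A : L → ℝ) (J : α → (L ↪o T)) (κ : α → T → ℝ),
      (∀ a b, sqd (κ a) (κ b) = sqd (P a) (P b)) ∧ ∀ a, sqd (spread A (J a)) (κ a) = h

theorem step (hA : Approx) {ι : Type} [Fintype ι] [Nonempty ι] (D : ι → ι → ℝ) (w : ι → ℝ)
    (hw : ∑ i, w i = 1) (h : ℝ) (hh : 0 < h) (F : ι → ℝ)
    (hF : ∀ j, F j = (∑ i, w i * D i j - (∑ i, ∑ l, w i * w l * D i l) / 2) + h)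
    (r : ℕ) (hX : Host ι D (Fin (r + 1))) (hY : Host (Option ι) (extD D F) (Fin r)) :
    Host (Option ι) (extD D F) (Fin (r + 1)) := by
  classical
  obtain ⟨α1, β1, hα1, hβ1, P1, hP1⟩ := hX
  obtain ⟨α, β, hα, hβ, P, hP⟩ := hY
  obtain ⟨L, T, hL, hLo, hT, hTo, A, J, κ, hκ, hJκ⟩ := hA α β hα hβ P h hh
  have : Fintype α1 := Fintype.ofFinite _
  obtain ⟨N, hN⟩ := ramseyEmb (Fintype.card (α1 → Fin (r + 1))) L T
  have ef : (α1 → Fin (r + 1)) ≃ Fin (Fintype.card (α1 → Fin (r + 1))) := Fintype.equivFin _
  refine ⟨(α1 × (L ↪o Fin N)) ⊕ ((ι → α1) × (T ↪o Fin N) × α), β1 ⊕ Fin N, ?_, inferInstance,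
    Sum.elim (fun p => Sum.elim (P1 p.1) (spread A p.2))
      (fun p => Sum.elim (fun b => ∑ i, w i * P1 (p.1 i) b) (push p.2.1 (κ p.2.2))), ?_⟩
  · have h1 : Finite (L ↪o Fin N) := Finite.of_injective (fun J : L ↪o Fin N => (J : L → Fin N))
      DFunLike.coe_injective
    have h2 : Finite (T ↪o Fin N) := Finite.of_injective (fun J : T ↪o Fin N => (J : T → Fin N))
      DFunLike.coe_injective
    infer_instance
  intro c
  obtain ⟨f, hf⟩ := hN (fun J => ef (fun b => c (Sum.inl (b, J))))
  by_cases hemp : Nonempty (L ↪o T)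
  swap
  · -- then there are no points `κ a`, which is impossible
    exfalso
    have hne : IsEmpty α := ⟨fun a => hemp ⟨J a⟩⟩
    obtain ⟨g, -⟩ := hP (fun a => hne.elim a)
    exact hne.elim (g none)
  obtain ⟨J0⟩ := hemp
  obtain ⟨g, hgc, hgD⟩ := hP1 (fun b => c (Sum.inl (b, J0.trans f)))
  have hcJ : ∀ (b : α1) (J' : L ↪o T), c (Sum.inl (b, J'.trans f)) = c (Sum.inl (b, J0.trans f)) :=
    fun b J' => congrFun (ef.injective (hf J' J0)) b
  obtain ⟨i0⟩ : Nonempty ι := inferInstance
  set c0 := c (Sum.inl (g i0, J0.trans f)) with hc0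
  have hfoot : ∀ j, sqd (fun b => ∑ i, w i * P1 (g i) b) (P1 (g j)) + h = F j := by
    intro j
    rw [sqd_foot w hw, hF j]
    simp only [hgD]
  by_cases hex : ∃ a, c (Sum.inr (g, f, a)) = c0
  · obtain ⟨a, ha⟩ := hex
    refine ⟨fun o => o.elim (Sum.inr (g, f, a)) (fun i => Sum.inl (g i, (J a).trans f)), ?_, ?_⟩
    · have key : ∀ o : Option ι,
          c (o.elim (Sum.inr (g, f, a)) (fun i => Sum.inl (g i, (J a).trans f))) = c0 := by
        intro o
        cases o with
        | none => exact ha
        | some i =>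
          show c (Sum.inl (g i, (J a).trans f)) = c0
          rw [hcJ, hc0]
          exact hgc i i0
      intro o o'
      rw [key, key]
    · have e1 : ∀ j, sqd (Sum.elim (fun b => ∑ i, w i * P1 (g i) b) (push f (κ a)))
          (Sum.elim (P1 (g j)) (spread A ((J a).trans f))) = F j := by
        intro j
        have e2 : (spread A ((J a).trans f) : Fin N → ℝ) = push f (spread A (J a)) := by
          rw [push_spread]; rfl
        rw [sqd_sum, e2, sqd_push _ f.injective, sqd_comm (κ a), hJκ, hfoot]
      intro o o'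
      cases o with
      | none =>
        cases o' with
        | none => exact sqd_self _
        | some j => exact e1 j
      | some i =>
        cases o' with
        | none =>
          show sqd (Sum.elim (P1 (g i)) (spread A ((J a).trans f)))
            (Sum.elim (fun b => ∑ i, w i * P1 (g i) b) (push f (κ a))) = F i
          rw [sqd_comm]; exact e1 i
        | some j =>
          show sqd (Sum.elim (P1 (g i)) (spread A ((J a).trans f)))
            (Sum.elim (P1 (g j)) (spread A ((J a).trans f))) = D i j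
          rw [sqd_sum, sqd_self, add_zero, hgD]
  · push Not at hex
    obtain ⟨g', hg'c, hg'D⟩ := hP (fun a => (finSuccAboveEquiv c0).symm ⟨c (Sum.inr (g, f, a)), hex a⟩)
    refine ⟨fun o => Sum.inr (g, f, g' o), ?_, ?_⟩
    · intro o o'
      have h1 := hg'c o o'
      have h2 := (finSuccAboveEquiv c0).symm.injective h1
      exact congrArg Subtype.val h2
    · intro o o'
      show sqd (Sum.elim (fun b => ∑ i, w i * P1 (g i) b) (push f (κ (g' o))))
        (Sum.elim (fun b => ∑ i, w i * P1 (g i) b) (push f (κ (g' o')))) = _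
      rw [sqd_sum, sqd_self, zero_add, sqd_push _ f.injective, hκ, hg'D]

theorem host_all (hA : Approx) {ι : Type} [Fintype ι] [Nonempty ι] (D : ι → ι → ℝ) (w : ι → ℝ)
    (hw : ∑ i, w i = 1) (h : ℝ) (hh : 0 < h) (F : ι → ℝ)
    (hF : ∀ j, F j = (∑ i, w i * D i j - (∑ i, ∑ l, w i * w l * D i l) / 2) + h)
    (hX : ∀ r : ℕ, Host ι D (Fin (r + 1))) (r : ℕ) : Host (Option ι) (extD D F) (Fin r) := by
  induction r with
  | zero =>
    refine ⟨Unit, Unit, inferInstance, inferInstance, fun _ _ => 0, fun c => ?_⟩
    exact (c ()).elim0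
  | succ r ih => exact step hA D w hw h hh F hF r (hX r) ih

end Pool.Agent.Helper53.Ext
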