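import Pool.Agent.Helper53.Ext.Host

/-!
# Shifts of a tent function are close to the points of a line
-/

set_option autoImplicit false

namespace Pool.Agent.Helper53.Ext

open Finset

/-- `m n + s σ n - m (n - s)` for the tent `m n = min n (2 L - n)` and its slope `-σ` -/
def tentErr (L s n : ℕ) : ℤ :=
  (min n (2 * L - n) : ℕ) + (if 1 ≤ n ∧ n ≤ L then -(s : ℤ) else if L < n ∧ n ≤ 2 * L then s else 0)
    - (min (n - s) (2 * L - (n - s)) : ℕ)

theorem tentErr_abs (L s n : ℕ) : |tentErr L s n| ≤ 2 * s := by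
  unfold tentErr
  rw [abs_le]
  constructor <;> split_ifs <;> omega

theorem tentErr_zero (L s n : ℕ) (hs : s ≤ L)
    (h : n ∉ Ioc 0 s ∪ Ioc L (L + s) ∪ Ioc (2 * L) (2 * L + s)) : tentErr L s n = 0 := by
  simp only [mem_union, mem_Ioc, not_or, not_and, not_le] at h
  obtain ⟨⟨h1, h2⟩, h3⟩ := h
  unfold tentErr
  split_ifs <;> omega

theorem tentErr_sum (L s W : ℕ) (hs : s ≤ L) :
    ∑ n ∈ range W, (tentErr L s n : ℝ) ^ 2 ≤ 12 * (s : ℝ) ^ 3 := by
  classical
  set bad := Ioc 0 s ∪ Ioc L (L + s) ∪ Ioc (2 * L) (2 * L + s) with hbad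
  have hcard : bad.card ≤ 3 * s := by
    calc bad.card ≤ (Ioc 0 s ∪ Ioc L (L + s)).card + (Ioc (2 * L) (2 * L + s)).card :=
          card_union_le _ _
      _ ≤ (Ioc 0 s).card + (Ioc L (L + s)).card + (Ioc (2 * L) (2 * L + s)).card := by
          gcongr; exact card_union_le _ _
      _ = 3 * s := by simp; omega
  have h1 : ∀ n ∈ range W, (tentErr L s n : ℝ) ^ 2 ≤ if n ∈ bad then 4 * (s : ℝ) ^ 2 else 0 := by
    intro n _
    split_ifs with h
    · have h2 := tentErr_abs L s n
      have h3 : |(tentErr L s n : ℝ)| ≤ 2 * s := by exact_mod_cast h2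
      have h4 := sq_le_sq' (abs_le.1 h3).1 (abs_le.1 h3).2
      linarith
    · rw [tentErr_zero L s n hs h]; simp
  calc ∑ n ∈ range W, (tentErr L s n : ℝ) ^ 2
      ≤ ∑ n ∈ range W, (if n ∈ bad then 4 * (s : ℝ) ^ 2 else 0) := sum_le_sum h1
    _ = ((range W).filter (· ∈ bad)).card * (4 * (s : ℝ) ^ 2) := by
        rw [← sum_filter, sum_const, nsmul_eq_mul]
    _ ≤ (3 * s) * (4 * (s : ℝ) ^ 2) := by
        gcongr
        have : ((range W).filter (· ∈ bad)).card ≤ bad.card := by
          apply card_le_card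
          intro n hn
          exact (mem_filter.1 hn).2
        exact_mod_cast this.trans hcard
    _ = 12 * (s : ℝ) ^ 3 := by ring

/-- Shifts of a suitable vector `v` are close to the points of a line. -/
theorem lineApprox (C δ : ℝ) (hδ : 0 < δ) : ∃ (l S : ℕ) (v u : ℕ → ℝ), v 0 = 0 ∧
    (∀ n, l ≤ n → v n = 0) ∧ (∀ W, l ≤ W → ∑ n ∈ range W, u n ^ 2 = 1) ∧
    ∀ x : ℝ, 0 ≤ x → x ≤ C → ∃ s ≤ S, ∀ W, l ≤ W →
      ∑ n ∈ range W, (v (n - s) - (v n + x * u n)) ^ 2 ≤ δ := by
  set η : ℝ := Real.sqrt δ / 2 with hη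
  have hη0 : 0 < η := by positivity
  have hη2 : η ^ 2 = δ / 4 := by
    rw [hη, div_pow, Real.sq_sqrt hδ.le]; norm_num
  set S : ℕ := ⌊C / η⌋₊ with hS
  set L : ℕ := 6 * S ^ 3 + 1 with hL
  have hL0 : (0 : ℝ) < L := by rw [hL]; positivity
  have hSL : S ≤ L := by
    rw [hL]
    rcases Nat.eq_zero_or_pos S with h | h
    · omega
    · have : S ≤ S ^ 3 := Nat.le_self_pow (by norm_num) S
      omega
  set q : ℝ := Real.sqrt (2 * L) with hq
  have hq0 : 0 < q := by positivity
  have hq2 : q ^ 2 = 2 * L := Real.sq_sqrt (by positivity)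
  set ε : ℝ := η / q with hε
  set u : ℕ → ℝ := fun n => if 1 ≤ n ∧ n ≤ L then -(1 / q) else if L < n ∧ n ≤ 2 * L then 1 / q
    else 0 with hu
  have husq : ∀ n, u n ^ 2 = if n ∈ Ioc 0 (2 * L) then 1 / (2 * (L : ℝ)) else 0 := by
    intro n
    have e : (1 / q) ^ 2 = 1 / (2 * (L : ℝ)) := by rw [div_pow, hq2]; norm_num
    simp only [hu, mem_Ioc]
    split_ifs with h1 h2 h3 h4 h5
    · rw [neg_sq, e]
    · omega
    · rw [e]
    · omega
    · omega
    · norm_num
  have hsum : ∀ W, 2 * L + 1 ≤ W → ∑ n ∈ range W, u n ^ 2 = 1 := by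
    intro W hW
    simp only [husq]
    rw [← sum_filter, sum_const, nsmul_eq_mul]
    have : ((range W).filter (· ∈ Ioc 0 (2 * L))) = Ioc 0 (2 * L) := by
      ext n
      simp only [mem_filter, mem_range, mem_Ioc]
      omega
    rw [this]
    simp only [Nat.card_Ioc, Nat.sub_zero]
    push_cast
    field_simp
  refine ⟨2 * L + 1, S, fun n => ε * (min n (2 * L - n) : ℕ), u, by simp, ?_, ?_, ?_⟩
  · intro n hn
    have : min n (2 * L - n) = 0 := by omega
    simp only [this]; simp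
  · exact hsum
  · intro x hx0 hxC
    set s : ℕ := ⌊x / η⌋₊ with hs
    have hsS : s ≤ S := Nat.floor_le_floor (by gcongr)
    have hs1 : (s : ℝ) * η ≤ x := by
      have := Nat.floor_le (show 0 ≤ x / η by positivity)
      rwa [le_div_iff₀ hη0] at this
    have hs2 : x < (s : ℝ) * η + η := by
      have := Nat.lt_floor_add_one (x / η)
      rw [div_lt_iff₀ hη0] at this
      linarith
    refine ⟨s, hsS, ?_⟩
    intro W hW
    have hterm : ∀ n ∈ range W,
        (ε * ((min (n - s) (2 * L - (n - s)) : ℕ) : ℝ) - (ε * ((min n (2 * L - n) : ℕ) : ℝ)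
          + x * u n)) ^ 2 ≤ 2 * ε ^ 2 * (tentErr L s n : ℝ) ^ 2 + 2 * η ^ 2 * u n ^ 2 := by
      intro n _
      have e1 : (tentErr L s n : ℝ) = (min n (2 * L - n) : ℕ)
          + (if 1 ≤ n ∧ n ≤ L then -(s : ℝ) else if L < n ∧ n ≤ 2 * L then s else 0)
          - (min (n - s) (2 * L - (n - s)) : ℕ) := by
        unfold tentErr
        push_cast
        split_ifs <;> ring
      have e2 : (if 1 ≤ n ∧ n ≤ L then -(s : ℝ) else if L < n ∧ n ≤ 2 * L then s else 0)
          = s * q * u n := by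
        simp only [hu]
        split_ifs
        · field_simp
        · field_simp
        · ring
      have e3 : ε * ((min (n - s) (2 * L - (n - s)) : ℕ) : ℝ) - (ε * ((min n (2 * L - n) : ℕ) : ℝ)
          + x * u n) = -(ε * (tentErr L s n : ℝ)) - (x - s * η) * u n := by
        rw [e1, e2, hε]
        field_simp
        ring
      rw [e3]
      have h1 : (x - s * η) ^ 2 ≤ η ^ 2 := by
        apply sq_le_sq'
        · linarith
        · linarith
      nlinarith [sq_nonneg (ε * (tentErr L s n : ℝ) - (x - s * η) * u n),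
        mul_le_mul_of_nonneg_right h1 (sq_nonneg (u n))]
    calc ∑ n ∈ range W, (ε * ((min (n - s) (2 * L - (n - s)) : ℕ) : ℝ)
          - (ε * ((min n (2 * L - n) : ℕ) : ℝ) + x * u n)) ^ 2
        ≤ ∑ n ∈ range W, (2 * ε ^ 2 * (tentErr L s n : ℝ) ^ 2
          + 2 * η ^ 2 * u n ^ 2) := sum_le_sum hterm
      _ = 2 * ε ^ 2 * ∑ n ∈ range W, (tentErr L s n : ℝ) ^ 2
          + 2 * η ^ 2 * ∑ n ∈ range W, u n ^ 2 := by
          rw [sum_add_distrib, mul_sum, mul_sum]
      _ ≤ 2 * ε ^ 2 * (12 * (s : ℝ) ^ 3) + 2 * η ^ 2 * 1 := by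
          gcongr
          · exact tentErr_sum L s _ (hsS.trans hSL)
          · exact (hsum W hW).le
      _ ≤ δ := by
          have h1 : ε ^ 2 = δ / (8 * L) := by
            rw [hε, div_pow, hq2, hη2]
            field_simp
            norm_num
          have h2 : (s : ℝ) ^ 3 ≤ (S : ℝ) ^ 3 := by gcongr
          have h3 : 6 * (S : ℝ) ^ 3 ≤ L := by rw [hL]; push_cast; linarith
          rw [h1, hη2]
          have h4 : 2 * (δ / (8 * L)) * (12 * (s : ℝ) ^ 3) ≤ δ / 2 := by
            have : 2 * (δ / (8 * L)) * (12 * (s : ℝ) ^ 3) = δ / 2 * (6 * (s : ℝ) ^ 3 / L) := by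
              field_simp
              ring
            rw [this]
            have h5 : 6 * (s : ℝ) ^ 3 / L ≤ 1 := by
              rw [div_le_one hL0]; linarith
            have h6 : 0 < δ / 2 := by linarith
            nlinarith
          linarith

end Pool.Agent.Helper53.Ext
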