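import Mathlib

/-!
# Ramsey's theorem for the `K`-subsets of a finite set of natural numbers
-/

set_option autoImplicit false

namespace Pool.Agent.Helper53.Ext

open Finset

/-- the version in which the colour of a set depends only on its least element -/
theorem minHom (K R : ℕ)
    (ih : ∀ M : ℕ, ∃ N : ℕ, ∀ S : Finset ℕ, N ≤ S.card → ∀ c : Finset ℕ → Fin R,
      ∃ H, H ⊆ S ∧ H.card = M ∧ ∀ A B : Finset ℕ, A ⊆ H → B ⊆ H → A.card = K → B.card = K →
        c A = c B) (T : ℕ) :
    ∃ N : ℕ, ∀ S : Finset ℕ, N ≤ S.card → ∀ c : Finset ℕ → Fin R,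
      ∃ H, H ⊆ S ∧ H.card = T ∧ ∃ d : ℕ → Fin R, ∀ x ∈ H, ∀ A : Finset ℕ, A ⊆ H →
        (∀ y ∈ A, x < y) → A.card = K → c (insert x A) = d x := by
  induction T with
  | zero =>
    refine ⟨0, fun S _ c => ⟨∅, by simp, by simp, fun _ => c ∅, by simp⟩⟩
  | succ T hT =>
    obtain ⟨NT, hNT⟩ := hT
    obtain ⟨N', hN'⟩ := ih NT
    refine ⟨N' + 1, fun S hS c => ?_⟩
    have hne : S.Nonempty := by
      rw [← Finset.card_pos]; omega
    set x := S.min' hne with hx
    have hxS : x ∈ S := Finset.min'_mem _ _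
    obtain ⟨H', hH'S, hH'c, hH'⟩ := hN' (S.erase x) (by
      rw [Finset.card_erase_of_mem hxS]; omega) (fun A => c (insert x A))
    obtain ⟨H, hHH', hHc, d, hd⟩ := hNT H' (le_of_eq hH'c.symm) c
    have hlt : ∀ y ∈ H', x < y := by
      intro y hy
      have h1 := hH'S hy
      rw [Finset.mem_erase] at h1
      exact lt_of_le_of_ne (Finset.min'_le _ _ h1.2) (Ne.symm h1.1)
    have hxH : x ∉ H := fun h => lt_irrefl _ (hlt x (hHH' h))
    classical
    refine ⟨insert x H, ?_, ?_, ?_⟩
    · intro y hy
      rcases Finset.mem_insert.1 hy with rfl | hy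
      · exact hxS
      · exact Finset.mem_of_mem_erase (hH'S (hHH' hy))
    · rw [Finset.card_insert_of_notMem hxH, hHc]
    · by_cases hex : ∃ A0 : Finset ℕ, A0 ⊆ H' ∧ A0.card = K
      · obtain ⟨A0, hA0, hA0c⟩ := hex
        refine ⟨fun y => if y = x then c (insert x A0) else d y, ?_⟩
        intro y hy A hA hAy hAc
        have hAH : A ⊆ H := by
          intro w hw
          rcases Finset.mem_insert.1 (hA hw) with h | h
          · exfalso
            have h1 := hAy w hw
            rw [h] at h1
            rcases Finset.mem_insert.1 hy with h2 | h2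
            · rw [h2] at h1; exact lt_irrefl _ h1
            · exact lt_asymm h1 (hlt y (hHH' h2))
          · exact h
        rcases Finset.mem_insert.1 hy with h | h
        · subst h
          simp only [if_true]
          exact hH' A A0 (hAH.trans hHH') hA0 hAc hA0c
        · have hyx : y ≠ x := fun h' => hxH (h' ▸ h)
          simp only [if_neg hyx]
          exact hd y h A hAH hAy hAc
      · refine ⟨d, ?_⟩
        intro y hy A hA hAy hAc
        exfalso
        apply hex
        refine ⟨A, ?_, hAc⟩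
        intro w hw
        rcases Finset.mem_insert.1 (hA hw) with h | h
        · exfalso
          have h1 := hAy w hw
          rw [h] at h1
          rcases Finset.mem_insert.1 hy with h2 | h2
          · rw [h2] at h1; exact lt_irrefl _ h1
          · exact lt_asymm h1 (hlt y (hHH' h2))
        · exact hHH' h

/-- **Ramsey's theorem.** -/
theorem ramsey (R : ℕ) (K : ℕ) : ∀ M : ℕ, ∃ N : ℕ, ∀ S : Finset ℕ, N ≤ S.card →
    ∀ c : Finset ℕ → Fin R, ∃ H, H ⊆ S ∧ H.card = M ∧ ∀ A B : Finset ℕ, A ⊆ H → B ⊆ H →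
      A.card = K → B.card = K → c A = c B := by
  induction K with
  | zero =>
    intro M
    refine ⟨M, fun S hS c => ?_⟩
    obtain ⟨H, hHS, hH⟩ := Finset.exists_subset_card_eq hS
    refine ⟨H, hHS, hH, fun A B _ _ hA hB => ?_⟩
    rw [Finset.card_eq_zero.1 hA, Finset.card_eq_zero.1 hB]
  | succ K ih =>
    intro M
    obtain ⟨N, hN⟩ := minHom K R ih (R * M)
    refine ⟨N, fun S hS c => ?_⟩
    obtain ⟨H, hHS, hHc, d, hd⟩ := hN S hS c
    have hR : Nonempty (Fin R) := ⟨c ∅⟩
    obtain ⟨c0, -, hc0⟩ := Finset.exists_le_card_fiber_of_mul_le_card_of_maps_to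
      (s := H) (t := (Finset.univ : Finset (Fin R))) (f := d) (n := M)
      (fun _ _ => Finset.mem_univ _) Finset.univ_nonempty (by simp [hHc])
    obtain ⟨H2, hH2, hH2c⟩ := Finset.exists_subset_card_eq hc0
    have hH2H : H2 ⊆ H := hH2.trans (Finset.filter_subset _ _)
    have key : ∀ A : Finset ℕ, A ⊆ H2 → A.card = K + 1 → c A = c0 := by
      intro A hA hAc
      have hne : A.Nonempty := by rw [← Finset.card_pos]; omega
      have hmem := Finset.min'_mem A hne
      have h1 := hd (A.min' hne) (hH2H (hA hmem)) (A.erase (A.min' hne))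
        ((Finset.erase_subset _ _).trans (hA.trans hH2H)) (by
          intro y hy
          exact Finset.min'_lt_of_mem_erase_min' _ _ hy) (by
          rw [Finset.card_erase_of_mem hmem]; omega)
      rw [Finset.insert_erase hmem] at h1
      rw [h1]
      exact (Finset.mem_filter.1 (hH2 (hA hmem))).2
    exact ⟨H2, hH2H.trans hHS, hH2c, fun A B hA hB hAc hBc => by
      rw [key A hA hAc, key B hB hBc]⟩

/-- Ramsey's theorem for order embeddings. -/
theorem ramseyEmb (R : ℕ) (L T : Type) [Fintype L] [LinearOrder L] [Fintype T] [LinearOrder T] :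
    ∃ N : ℕ, ∀ c : (L ↪o Fin N) → Fin R, ∃ f : T ↪o Fin N, ∀ J J' : L ↪o T,
      c (J.trans f) = c (J'.trans f) := by
  obtain ⟨N0, hN⟩ := ramsey R (Fintype.card L) (Fintype.card T)
  obtain ⟨N, hN0, hNT⟩ : ∃ N, N0 ≤ N ∧ Fintype.card T ≤ N :=
    ⟨N0 + Fintype.card T, by omega, by omega⟩
  refine ⟨N, fun c => ?_⟩
  classical
  have e : T ≃o Fin (Fintype.card T) := (Fintype.orderIsoFinOfCardEq T rfl).symm
  by_cases hne : Nonempty (L ↪o Fin N)
  · obtain ⟨J0⟩ := hne
    set cc : Finset ℕ → Fin R := fun A =>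
      if h : ∃ J : L ↪o Fin N, (Finset.univ.image fun t => ((J t : Fin N) : ℕ)) = A
        then c h.choose else c J0 with hcc
    have hccJ : ∀ J : L ↪o Fin N, cc (Finset.univ.image fun t => ((J t : Fin N) : ℕ)) = c J := by
      intro J
      have h : ∃ J' : L ↪o Fin N, (Finset.univ.image fun t => ((J' t : Fin N) : ℕ))
          = (Finset.univ.image fun t => ((J t : Fin N) : ℕ)) := ⟨J, rfl⟩
      simp only [hcc]
      rw [dif_pos h]
      congr 1
      have h1 := h.choose_spec
      have m1 : StrictMono fun t => ((h.choose t : Fin N) : ℕ) := fun a b hab =>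
        h.choose.strictMono hab
      have m2 : StrictMono fun t => ((J t : Fin N) : ℕ) := fun a b hab => J.strictMono hab
      have h2 : Set.range (fun t => ((h.choose t : Fin N) : ℕ))
          = Set.range (fun t => ((J t : Fin N) : ℕ)) := by
        have := congrArg (fun s : Finset ℕ => (s : Set ℕ)) h1
        simpa using this
      have h3 := (StrictMono.range_inj m1 m2).1 h2
      ext t
      exact congrFun h3 t
    obtain ⟨H, hHS, hHc, hH⟩ := hN (Finset.range N) (by simpa using hN0) cc
    have hmem : ∀ t : T, H.orderEmbOfFin hHc (e t) ∈ Finset.range N := fun t =>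
      hHS (Finset.orderEmbOfFin_mem _ _ _)
    set f : T ↪o Fin N := OrderEmbedding.ofStrictMono
      (fun t => (⟨H.orderEmbOfFin hHc (e t), Finset.mem_range.1 (hmem t)⟩ : Fin N)) (by
        intro a b hab
        show (H.orderEmbOfFin hHc (e a)) < (H.orderEmbOfFin hHc (e b))
        exact (H.orderEmbOfFin hHc).strictMono (e.strictMono hab)) with hf
    refine ⟨f, fun J J' => ?_⟩
    rw [← hccJ, ← hccJ]
    have hcard : ∀ J : L ↪o T, (Finset.univ.image fun t => (((J.trans f) t : Fin N) : ℕ)).card
        = Fintype.card L := by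
      intro J
      rw [Finset.card_image_of_injective, Finset.card_univ]
      intro a b hab
      exact (J.trans f).injective (Fin.ext hab)
    have hsub : ∀ J : L ↪o T, (Finset.univ.image fun t => (((J.trans f) t : Fin N) : ℕ)) ⊆ H := by
      intro J y hy
      obtain ⟨t, -, rfl⟩ := Finset.mem_image.1 hy
      exact Finset.orderEmbOfFin_mem _ _ _
    exact hH _ _ (hsub J) (hsub J') (hcard J) (hcard J')
  · refine ⟨e.toOrderEmbedding.trans (Fin.castLEOrderEmb hNT), fun J J' => ?_⟩
    exact absurd ⟨J.trans (e.toOrderEmbedding.trans (Fin.castLEOrderEmb hNT))⟩ hne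

end Pool.Agent.Helper53.Ext
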